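import Mathlib

/-!
# Iterated transducers and generation in logarithmic space: definitions

The two notions of the problem (iteration of a dgsm, generation in logarithmic space by a
multi-tape machine), written exactly as in the frozen statement.
-/

set_option autoImplicit false

namespace Pool.Agent.W_MP_5d512e_h33

/-- The map computed by the dgsm with states `Fin p`, letters `Fin d`, next state function `δ`,
output function `out` and initial state `q0`. -/
def trans {d p : ℕ} (δ : Fin p → Fin d → Fin p) (q0 : Fin p)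
    (out : Fin p → Fin d → List (Fin d)) : List (Fin d) → List (Fin d) :=
  fun u => (List.foldl (fun (acc : Fin p × List (Fin d)) (x : Fin d) =>
    (δ acc.1 x, acc.2 ++ out acc.1 x)) (q0, []) u).2

/-- `w` is the infinite word generated by iterating the (non-erasing) dgsm on the letter `a`. -/
structure Iterates {d p : ℕ} (δ : Fin p → Fin d → Fin p) (q0 : Fin p)
    (out : Fin p → Fin d → List (Fin d)) (a : Fin d) (w : ℕ → Fin d) : Prop where
  nonerasing : ∀ s x, out s x ≠ []
  start : [a] <+: trans δ q0 out [a]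
  unbounded : ∀ N : ℕ, ∃ n : ℕ, N ≤ ((trans δ q0 out)^[n] [a]).length
  limit : ∀ (n i : ℕ) (h : i < ((trans δ q0 out)^[n] [a]).length),
    ((trans δ q0 out)^[n] [a])[i] = w i

/-- The infinite word `w` is generated by a deterministic multi-tape machine in logarithmic
space. -/
def LogSpace {d : ℕ} (w : ℕ → Fin d) : Prop :=
  ∃ (m k g C : ℕ)
    (δM : Fin (m+1) → (Fin k → Fin (g+1)) →
      Fin (m+1) × (Fin k → Fin (g+1)) × (Fin k → Fin 3) × Option (Fin d))
    (conf : ℕ → Fin (m+1) × (Fin k → ℕ → Fin (g+1)) × (Fin k → ℕ) × List (Fin d)),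
    conf 0 = (0, fun _ _ => 0, fun _ => 0, []) ∧
    (∀ t : ℕ, conf (t+1) =
      ((δM (conf t).1 (fun j => (conf t).2.1 j ((conf t).2.2.1 j))).1,
       fun j i => if i = (conf t).2.2.1 j
         then (δM (conf t).1 (fun j' => (conf t).2.1 j' ((conf t).2.2.1 j'))).2.1 j
         else (conf t).2.1 j i,
       fun j => (conf t).2.2.1 j
         + ((δM (conf t).1 (fun j' => (conf t).2.1 j' ((conf t).2.2.1 j'))).2.2.1 j : ℕ) - 1,
       (conf t).2.2.2
         ++ ((δM (conf t).1 (fun j' => (conf t).2.1 j' ((conf t).2.2.1 j'))).2.2.2).toList)) ∧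
    (∀ (t i : ℕ) (h : i < (conf t).2.2.2.length), (conf t).2.2.2[i] = w i) ∧
    (∀ n : ℕ, ∃ t : ℕ, n ≤ (conf t).2.2.2.length) ∧
    (∀ n t : ℕ, 1 ≤ n → (∀ t' < t, (conf t').2.2.2.length < n) →
      ∀ j : Fin k, (conf t).2.2.1 j + 1 ≤ C * (Nat.log 2 n + 1))

end Pool.Agent.W_MP_5d512e_h33
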