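import Mathlib

/-!
# The queue process of an iterated transducer
-/

set_option autoImplicit false

namespace Pool.Agent.W_MP_5d512e_h33

section

variable {S A : Type} (δ : S → A → S) (out : S → A → List A)

/-- State and output after reading a word. -/
def run (q : S) (u : List A) : S × List A :=
  List.foldl (fun (acc : S × List A) (x : A) => (δ acc.1 x, acc.2 ++ out acc.1 x)) (q, []) u

lemma foldl_eq (u : List A) (q : S) (l : List A) :
    List.foldl (fun (acc : S × List A) (x : A) => (δ acc.1 x, acc.2 ++ out acc.1 x)) (q, l) u =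
      ((run δ out q u).1, l ++ (run δ out q u).2) := by
  induction u generalizing q l with
  | nil => simp [run]
  | cons x u ih =>
    simp only [run, List.foldl_cons, List.nil_append]
    rw [ih, ih (δ q x) (out q x)]
    simp

@[simp] lemma run_nil (q : S) : run δ out q [] = (q, []) := rfl

lemma run_cons (q : S) (x : A) (u : List A) :
    run δ out q (x :: u) =
      ((run δ out (δ q x) u).1, out q x ++ (run δ out (δ q x) u).2) := by
  simp only [run, List.foldl_cons, List.nil_append]
  rw [foldl_eq]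
  rfl

lemma run_append (q : S) (u v : List A) :
    run δ out q (u ++ v) =
      ((run δ out (run δ out q u).1 v).1,
        (run δ out q u).2 ++ (run δ out (run δ out q u).1 v).2) := by
  induction u generalizing q with
  | nil => simp
  | cons x u ih => simp only [List.cons_append, run_cons, ih, List.append_assoc]

lemma run_singleton (q : S) (x : A) : run δ out q [x] = (δ q x, out q x) := by
  simp [run_cons]

lemma run_length (hne : ∀ q x, out q x ≠ []) (q : S) (u : List A) :
    u.length ≤ (run δ out q u).2.length := by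
  induction u generalizing q with
  | nil => simp
  | cons x u ih =>
    rw [run_cons, List.length_append, List.length_cons]
    have := ih (δ q x)
    have := List.length_pos_iff.2 (hne q x)
    omega

/-- Read one letter of the queue: state, queue, and everything that was ever in the queue. -/
def qstep : S × List A × List A → S × List A × List A
  | (q, [], T) => (q, [], T)
  | (q, x :: Z, T) => (δ q x, Z ++ out q x, T ++ out q x)

/-- Reading a block. -/
lemma read_block (u : List A) (q : S) (Z T : List A) :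
    (qstep δ out)^[u.length] (q, u ++ Z, T) =
      ((run δ out q u).1, Z ++ (run δ out q u).2, T ++ (run δ out q u).2) := by
  induction u generalizing q Z T with
  | nil => simp
  | cons x u ih =>
    rw [List.length_cons, Function.iterate_succ_apply]
    change (qstep δ out)^[u.length] (δ q x, (u ++ Z) ++ out q x, T ++ out q x) = _
    rw [List.append_assoc, ih, run_cons, List.append_assoc, List.append_assoc]

/-- The sequence of the queue states; the first one is the state after reading the start
letter. -/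
def seq (i : ℕ) (s : S × List A × List A) : S × List A × List A := (qstep δ out)^[i] s

lemma seq_succ (i : ℕ) (s : S × List A × List A) :
    seq δ out (i + 1) s = qstep δ out (seq δ out i s) := by
  simp only [seq, Function.iterate_succ_apply']

lemma seq_add (i j : ℕ) (s : S × List A × List A) :
    seq δ out (i + j) s = (qstep δ out)^[j] (seq δ out i s) := by
  simp only [seq]
  rw [Nat.add_comm, Function.iterate_add_apply]

end

/-- The data of an iterated transducer: the first output is `a :: u` with `u` nonempty. -/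
structure Sys (S A : Type) where
  δ : S → A → S
  out : S → A → List A
  q0 : S
  a : A
  u : List A
  hne : ∀ q x, out q x ≠ []
  ha : out q0 a = a :: u
  hu : u ≠ []

namespace Sys

variable {S A : Type} (Y : Sys S A)

/-- The transduction. -/
def tr (w : List A) : List A := (run Y.δ Y.out Y.q0 w).2

/-- The queue states. -/
def st (i : ℕ) : S × List A × List A := seq Y.δ Y.out i (Y.δ Y.q0 Y.a, Y.u, Y.a :: Y.u)

/-- Length of the queue. -/
def K (i : ℕ) : ℕ := (Y.st i).2.1.length

/-- Total word. -/
def T (i : ℕ) : List A := (Y.st i).2.2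

lemma st_zero : Y.st 0 = (Y.δ Y.q0 Y.a, Y.u, Y.a :: Y.u) := rfl

lemma st_succ (i : ℕ) : Y.st (i + 1) = qstep Y.δ Y.out (Y.st i) := seq_succ _ _ _ _

lemma inv (i : ℕ) : (Y.st i).1 = (run Y.δ Y.out Y.q0 ((Y.T i).take (i + 1))).1 ∧
    Y.T i = Y.tr ((Y.T i).take (i + 1)) ∧ (Y.st i).2.1 = (Y.T i).drop (i + 1) ∧
    i + 1 < (Y.T i).length := by
  induction i with
  | zero =>
    have h := List.length_pos_iff.2 Y.hu
    simp [T, st_zero, tr, run_singleton, Y.ha, h]
  | succ i ih =>
    obtain ⟨h1, h2, h3, h4⟩ := ih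
    have hT : Y.T i = (Y.st i).2.2 := rfl
    have hT' : Y.T (i + 1) = (Y.st (i + 1)).2.2 := rfl
    rw [List.drop_eq_getElem_cons h4] at h3
    have hs : Y.st (i + 1) = (Y.δ (Y.st i).1 (Y.T i)[i + 1],
        (Y.T i).drop (i + 1 + 1) ++ Y.out (Y.st i).1 (Y.T i)[i + 1],
        Y.T i ++ Y.out (Y.st i).1 (Y.T i)[i + 1]) := by
      rw [st_succ]
      have : Y.st i = ((Y.st i).1, (Y.T i)[i + 1] :: (Y.T i).drop (i + 1 + 1), Y.T i) := by
        rw [← h3]
        rfl
      conv_lhs => rw [this]
      rfl
    have htake : (Y.T (i + 1)).take (i + 1 + 1) =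
        (Y.T i).take (i + 1) ++ [(Y.T i)[i + 1]] := by
      rw [hT', hs]
      simp only
      rw [List.take_append_of_le_length (by omega), List.take_succ_eq_append_getElem h4]
    have hrun : run Y.δ Y.out Y.q0 ((Y.T (i + 1)).take (i + 1 + 1)) =
        (Y.δ (Y.st i).1 (Y.T i)[i + 1], Y.T i ++ Y.out (Y.st i).1 (Y.T i)[i + 1]) := by
      rw [htake, run_append, run_singleton, ← h1]
      simp only [Prod.mk.injEq, true_and]
      have h2' : (run Y.δ Y.out Y.q0 ((Y.T i).take (i + 1))).2 = Y.T i := h2.symm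
      rw [h2']
    have hTe : Y.T (i + 1) = Y.T i ++ Y.out (Y.st i).1 (Y.T i)[i + 1] := by rw [hT', hs]
    refine ⟨?_, ?_, ?_, ?_⟩
    · rw [hrun, hs]
    · rw [tr, hrun, hTe]
    · rw [hTe, List.drop_append_of_le_length (by omega), hs]
    · rw [hTe, List.length_append]
      have := List.length_pos_iff.2 (Y.hne (Y.st i).1 (Y.T i)[i + 1])
      omega

lemma T_succ (i : ℕ) : ∃ x, Y.T (i + 1) = Y.T i ++ Y.out (Y.st i).1 x ∧
    (Y.st i).2.1 = x :: (Y.st i).2.1.tail ∧
    Y.st (i + 1) = (Y.δ (Y.st i).1 x, (Y.st i).2.1.tail ++ Y.out (Y.st i).1 x,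
      Y.T i ++ Y.out (Y.st i).1 x) := by
  obtain ⟨h1, h2, h3, h4⟩ := Y.inv i
  rw [List.drop_eq_getElem_cons h4] at h3
  refine ⟨(Y.T i)[i + 1], ?_, ?_, ?_⟩
  · have : Y.T (i + 1) = (Y.st (i + 1)).2.2 := rfl
    rw [this, st_succ]
    have : Y.st i = ((Y.st i).1, (Y.T i)[i + 1] :: (Y.T i).drop (i + 1 + 1), Y.T i) := by
      rw [← h3]
      rfl
    conv_lhs => rw [this]
    rfl
  · rw [h3]; rfl
  · rw [st_succ]
    have : Y.st i = ((Y.st i).1, (Y.T i)[i + 1] :: (Y.T i).drop (i + 1 + 1), Y.T i) := by
      rw [← h3]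
      rfl
    conv_lhs => rw [this]
    rw [h3]
    rfl

lemma T_prefix {i j : ℕ} (h : i ≤ j) : Y.T i <+: Y.T j := by
  induction j, h using Nat.le_induction with
  | base => exact List.prefix_rfl
  | succ j _ ih =>
    obtain ⟨x, hx, -⟩ := Y.T_succ j
    rw [hx]
    exact ih.trans (List.prefix_append _ _)

lemma T_length (i : ℕ) : (Y.T i).length = i + 1 + Y.K i := by
  obtain ⟨-, -, h3, h4⟩ := Y.inv i
  rw [K, h3, List.length_drop]
  omega

lemma K_pos (i : ℕ) : 1 ≤ Y.K i := by
  have := (Y.inv i).2.2.2
  have := Y.T_length i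
  omega

lemma K_succ (i : ℕ) : ∃ x, Y.K (i + 1) + 1 = Y.K i + (Y.out (Y.st i).1 x).length := by
  obtain ⟨x, hx, -⟩ := Y.T_succ i
  refine ⟨x, ?_⟩
  have h1 := Y.T_length (i + 1)
  have h2 := Y.T_length i
  rw [hx, List.length_append] at h1
  omega

lemma K_mono : Monotone Y.K := by
  refine monotone_nat_of_le_succ fun i => ?_
  obtain ⟨x, hx⟩ := Y.K_succ i
  have := List.length_pos_iff.2 (Y.hne (Y.st i).1 x)
  omega

lemma K_succ_le {M : ℕ} (hM : ∀ q x, (Y.out q x).length ≤ M) (i : ℕ) :
    Y.K (i + 1) ≤ Y.K i + M := by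
  obtain ⟨x, hx⟩ := Y.K_succ i
  have := hM (Y.st i).1 x
  omega

lemma tr_iterate (n : ℕ) :
    Y.tr^[n + 1] [Y.a] = Y.T ((Y.tr^[n] [Y.a]).length - 1) ∧ 1 ≤ (Y.tr^[n] [Y.a]).length := by
  induction n with
  | zero =>
    simp [tr, run_singleton, Y.ha, T, st_zero]
  | succ n ih =>
    obtain ⟨ih1, ih2⟩ := ih
    set i := (Y.tr^[n] [Y.a]).length - 1 with hi
    have hl := Y.T_length i
    have hk := Y.K_pos i
    refine ⟨?_, by rw [ih1]; omega⟩
    rw [Function.iterate_succ_apply', ih1]
    set j := (Y.T i).length - 1 with hj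
    have hij : i ≤ j := by omega
    have h1 := (Y.inv j).2.1
    rw [h1]
    congr 1
    have h2 := Y.T_prefix hij
    rw [List.prefix_iff_eq_take] at h2
    rw [show j + 1 = (Y.T i).length by omega]
    exact h2

/-- The lengths of the iterates. -/
def t (n : ℕ) : ℕ := (Y.tr^[n] [Y.a]).length

lemma t_zero : Y.t 0 = 1 := rfl

lemma t_pos (n : ℕ) : 1 ≤ Y.t n := (Y.tr_iterate n).2

lemma t_succ (n : ℕ) : Y.t (n + 1) = Y.t n + Y.K (Y.t n - 1) := by
  have h := Y.tr_iterate n
  have h1 := Y.t_pos n
  have : Y.t (n + 1) = (Y.T (Y.t n - 1)).length := by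
    rw [t, h.1]; rfl
  rw [this, T_length]
  omega

lemma t_lt (n : ℕ) : n < Y.t n := by
  induction n with
  | zero => simp [t_zero]
  | succ n ih =>
    rw [t_succ]
    have := Y.K_pos (Y.t n - 1)
    omega

/-- All `T i` are prefixes of iterates. -/
lemma T_prefix_iterate (i : ℕ) : Y.T i <+: Y.tr^[i + 2] [Y.a] := by
  rw [(Y.tr_iterate (i + 1)).1]
  apply T_prefix
  have := Y.t_lt (i + 1)
  have h : (Y.tr^[i + 1] [Y.a]).length = Y.t (i + 1) := rfl
  omega

/-- The limit word. -/
noncomputable def lim (i : ℕ) : A := (Y.T i)[i]'(by have := Y.T_length i; omega)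

lemma T_getElem {i j : ℕ} (h : j < (Y.T i).length) : (Y.T i)[j] = Y.lim j := by
  rw [lim]
  rcases le_total i j with hij | hij
  · exact (Y.T_prefix hij).getElem h
  · exact ((Y.T_prefix hij).getElem (by have := Y.T_length j; omega)).symm

lemma iterate_getElem (n i : ℕ) (h : i < (Y.tr^[n] [Y.a]).length) :
    (Y.tr^[n] [Y.a])[i] = Y.lim i := by
  cases n with
  | zero =>
    simp only [Function.iterate_zero, id_eq, List.length_singleton] at h
    obtain rfl : i = 0 := by omega
    simp [lim, T, st_zero]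
  | succ n =>
    have h1 := (Y.tr_iterate n).1
    have h2 : i < (Y.T ((Y.tr^[n] [Y.a]).length - 1)).length := by rw [← h1]; exact h
    rw [← Y.T_getElem h2]
    congr 1

end Sys

end Pool.Agent.W_MP_5d512e_h33
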