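import Pool.Agent.W_MP_5d512e_h33.Sim

/-!
# Growth
-/

set_option autoImplicit false

namespace Pool.Agent.W_MP_5d512e_h33

/-- The sequence grows slowly: at most by `C` in `K ^ k / C` steps. -/
def Slow (k C : ℕ) (K : ℕ → ℕ) : Prop := ∀ m s, s * C ≤ K m ^ k → K (m + s) ≤ K m + C

lemma slow_zero {K : ℕ → ℕ} {M : ℕ} : Slow 0 (M + 2) K := by
  intro m s h
  have : s = 0 := by
    rw [pow_zero] at h
    rcases Nat.eq_zero_or_pos s with h0 | h0
    · exact h0
    · have : 1 * (M + 2) ≤ s * (M + 2) := Nat.mul_le_mul_right _ h0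
      omega
  subst this
  simp

lemma Slow.mono {k C C' : ℕ} {K : ℕ → ℕ} (h : Slow k C K) (hC : C ≤ C') : Slow k C' K := by
  intro m s hs
  have := h m s ((Nat.mul_le_mul_left s hC).trans hs)
  omega

section

variable {p : ℕ} {A : Type} (Y : Sys (Fin (p + 1)) A)

lemma tm_add (i j : ℕ) : tm Y i + j * Y.K i ≤ tm Y (i + j) := by
  induction j with
  | zero => simp
  | succ j ih =>
    have h1 : tm Y (i + (j + 1)) = tm Y (i + j) + cost Y (Y.st (i + j)) := rfl
    have h2 := le_cost Y (i + j)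
    have h3 : Y.K i ≤ Y.K (i + j) := Y.K_mono (by omega)
    rw [h1, Nat.succ_mul]
    omega

lemma le_tm (i : ℕ) : i ≤ tm Y i := by
  have h := tm_add Y 0 i
  have h1 := Y.K_pos 0
  rw [Nat.zero_add] at h
  have h2 : i * 1 ≤ i * Y.K 0 := Nat.mul_le_mul_left _ h1
  omega

theorem slow_sim {M : ℕ} (hM : ∀ q x, (Y.out q x).length ≤ M) {k C : ℕ} (h : Slow k C Y.K) :
    Slow (k + 1) (C + (Y.K 0 + M) + M) (nsys Y).K := by
  intro m s hs
  have hex : ∃ i, m < tm Y i := ⟨m + 1, by have := le_tm Y (m + 1); omega⟩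
  have hex' : ∃ i, m + s ≤ tm Y i := ⟨m + s, le_tm Y (m + s)⟩
  classical
  set i := Nat.find hex with hi
  have hi1 : m < tm Y i := Nat.find_spec hex
  set i' := Nat.find hex' with hi'
  have hi1' : m + s ≤ tm Y i' := Nat.find_spec hex'
  have hA : Y.K i ≤ (nsys Y).K m + (Y.K 0 + M) := by
    rcases Nat.eq_zero_or_pos i with h0 | h0
    · rw [h0]; omega
    · have h1 := Nat.find_min hex (m := i - 1) (by omega)
      have h2 : tm Y (i - 1) ≤ m := by omega
      have h3 := (nsys Y).K_mono h2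
      rw [K_tm] at h3
      have h4 := Y.K_succ_le hM (i - 1)
      rw [show i - 1 + 1 = i by omega] at h4
      omega
  have hB : (nsys Y).K (m + s) ≤ Y.K i' := by
    have := (nsys Y).K_mono hi1'
    rwa [K_tm] at this
  have hD : (nsys Y).K m ≤ Y.K i := by
    have := (nsys Y).K_mono hi1.le
    rwa [K_tm] at this
  rcases Nat.lt_or_ge (i + 1) i' with hc | hc
  · obtain ⟨j, hj⟩ : ∃ j, i' = i + j + 1 := ⟨i' - i - 1, by omega⟩
    have h1 := Nat.find_min hex' (m := i + j) (by omega)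
    have h2 : tm Y (i + j) < m + s := by omega
    have h3 := tm_add Y i j
    have h4 : j * Y.K i ≤ s := by omega
    have hK := Y.K_pos i
    have h5 : (j * C) * Y.K i ≤ Y.K i ^ k * Y.K i := by
      calc (j * C) * Y.K i = (j * Y.K i) * C := by ring
        _ ≤ s * C := Nat.mul_le_mul_right _ h4
        _ ≤ s * (C + (Y.K 0 + M) + M) := Nat.mul_le_mul_left _ (by omega)
        _ ≤ (nsys Y).K m ^ (k + 1) := hs
        _ ≤ Y.K i ^ (k + 1) := Nat.pow_le_pow_left hD _
        _ = Y.K i ^ k * Y.K i := pow_succ _ _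
    have h6 : j * C ≤ Y.K i ^ k := Nat.le_of_mul_le_mul_right h5 hK
    have h7 := h i j h6
    have h8 := Y.K_succ_le hM (i + j)
    rw [← hj] at h8
    omega
  · have h1 : Y.K i' ≤ Y.K (i + 1) := Y.K_mono hc
    have h2 := Y.K_succ_le hM i
    omega

lemma tm_le {M : ℕ} (hM : ∀ q x, (Y.out q x).length ≤ M) (i : ℕ) :
    tm Y i ≤ Y.K 0 + i * ((p + 2) * Y.K i + M + 3) := by
  induction i with
  | zero =>
    simp only [tm, Nat.zero_mul, Nat.add_zero]
    exact le_rfl
  | succ i ih =>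
    have h1 : tm Y (i + 1) = tm Y i + cost Y (Y.st i) := rfl
    have h2 := cost_le Y hM i
    have h3 : Y.K i ≤ Y.K (i + 1) := Y.K_mono (by omega)
    have h4 : (p + 2) * Y.K i ≤ (p + 2) * Y.K (i + 1) := Nat.mul_le_mul_left _ h3
    have h5 : i * ((p + 2) * Y.K i + M + 3) ≤ i * ((p + 2) * Y.K (i + 1) + M + 3) :=
      Nat.mul_le_mul_left _ (by omega)
    rw [h1, Nat.succ_mul]
    omega

end

lemma K_le {S A : Type} (Y : Sys S A) {M : ℕ} (hM : ∀ q x, (Y.out q x).length ≤ M) (i : ℕ) :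
    Y.K i ≤ Y.K 0 + M * i := by
  induction i with
  | zero => simp
  | succ i ih =>
    have := Y.K_succ_le hM i
    rw [Nat.mul_succ]
    omega

theorem grow {K : ℕ → ℕ} (hmono : Monotone K) {M k C : ℕ}
    (hM : ∀ i, K (i + 1) ≤ K i + M) (hC : 1 ≤ C) (h : Slow k C K) :
    ∃ D, ∀ i, K i ^ (k + 1) ≤ D * (i + 1) := by
  have hlin : ∀ i, K i ≤ K 0 + M * i := by
    intro i
    induction i with
    | zero => simp
    | succ i ih =>
      have := hM i
      rw [Nat.mul_succ]
      omega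
  refine ⟨(2 * K 0) ^ (k + 1) + (K 0 + M) * (2 ^ k * C) + (4 * M + 4 * C) ^ (k + 1) +
    2 ^ k * (2 * C) * (4 * C), fun i => ?_⟩
  have hex : ∃ m, K i ≤ 2 * K m := ⟨i, by omega⟩
  classical
  set m := Nat.find hex with hm
  have hm1 : K i ≤ 2 * K m := Nat.find_spec hex
  have hmi : m ≤ i := Nat.find_min' hex (by omega)
  have key : K i ^ (k + 1) ≤ (2 * K 0) ^ (k + 1) ∨
      K i ^ (k + 1) ≤ (K 0 + M) * (2 ^ k * C) * (i + 1) ∨
      K i ^ (k + 1) ≤ (4 * M + 4 * C) ^ (k + 1) ∨
      K i ^ (k + 1) ≤ 2 ^ k * (2 * C) * (4 * C) * (i + 1) := by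
    rcases Nat.eq_zero_or_pos m with h0 | h0
    · left
      rw [h0] at hm1
      exact Nat.pow_le_pow_left hm1 _
    right
    have h1 := Nat.find_min hex (m := m - 1) (by omega)
    have h2 := hM (m - 1)
    rw [show m - 1 + 1 = m by omega] at h2
    have h3 : 2 * K m < K i + 2 * M := by omega
    have h4 : K i ^ k ≤ 2 ^ k * K m ^ k := by
      rw [← mul_pow]; exact Nat.pow_le_pow_left hm1 _
    rcases Nat.lt_or_ge (K m ^ k) C with hcase | hcase
    · left
      calc K i ^ (k + 1) = K i * K i ^ k := by ring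
        _ ≤ (K 0 + M * i) * (2 ^ k * C) :=
          Nat.mul_le_mul (hlin i) (h4.trans (Nat.mul_le_mul_left _ hcase.le))
        _ ≤ ((K 0 + M) * (i + 1)) * (2 ^ k * C) := by
          apply Nat.mul_le_mul_right
          nlinarith [Nat.zero_le (K 0 * i)]
        _ = (K 0 + M) * (2 ^ k * C) * (i + 1) := by ring
    right
    set s0 := K m ^ k / C with hs0
    have hs1 : 1 ≤ s0 := (Nat.one_le_div_iff (by omega)).2 hcase
    have hs2 : s0 * C ≤ K m ^ k := Nat.div_mul_le_self _ _
    have hs3 : K m ^ k < (s0 + 1) * C := by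
      rw [hs0, Nat.mul_comm]
      exact Nat.lt_mul_div_succ _ (by omega)
    have hj : ∀ j, K (m + j * s0) ≤ K m + j * C := by
      intro j
      induction j with
      | zero => simp
      | succ j ih =>
        have h5 : K m ≤ K (m + j * s0) := hmono (by omega)
        have h6 := h (m + j * s0) s0 (hs2.trans (Nat.pow_le_pow_left h5 _))
        rw [show m + (j + 1) * s0 = m + j * s0 + s0 by ring]
        have : (j + 1) * C = j * C + C := by ring
        omega
    have h5 := hj ((i - m) / s0 + 1)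
    have h6 : i ≤ m + ((i - m) / s0 + 1) * s0 := by
      have := Nat.lt_mul_div_succ (i - m) (show 0 < s0 by omega)
      rw [Nat.mul_comm] at this
      omega
    have h7 := (hmono h6).trans h5
    have h8 : (i - m) / s0 ≤ i / s0 := Nat.div_le_div_right (by omega)
    have h9 : ((i - m) / s0 + 1) * C ≤ (i / s0 + 1) * C := Nat.mul_le_mul_right _ (by omega)
    have h10 : K i ≤ 2 * M + 2 * C + 2 * (i / s0 * C) := by
      have : (i / s0 + 1) * C = i / s0 * C + C := by ring
      omega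
    rcases Nat.lt_or_ge (4 * M + 4 * C) (K i) with hB | hB
    · right
      have h11 : K i ≤ 4 * (i / s0 * C) := by omega
      have h12 : K i * s0 ≤ 4 * C * i := by
        calc K i * s0 ≤ 4 * (i / s0 * C) * s0 := Nat.mul_le_mul_right _ h11
          _ = 4 * C * (i / s0 * s0) := by ring
          _ ≤ 4 * C * i := Nat.mul_le_mul_left _ (Nat.div_mul_le_self _ _)
      calc K i ^ (k + 1) = K i * K i ^ k := by ring
        _ ≤ K i * (2 ^ k * K m ^ k) := Nat.mul_le_mul_left _ h4
        _ ≤ K i * (2 ^ k * (2 * s0 * C)) := by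
          apply Nat.mul_le_mul_left
          apply Nat.mul_le_mul_left
          have : (s0 + 1) * C ≤ (2 * s0) * C := Nat.mul_le_mul_right _ (by omega)
          omega
        _ = 2 ^ k * (2 * C) * (K i * s0) := by ring
        _ ≤ 2 ^ k * (2 * C) * (4 * C * i) := Nat.mul_le_mul_left _ h12
        _ = 2 ^ k * (2 * C) * (4 * C) * i := by ring
        _ ≤ 2 ^ k * (2 * C) * (4 * C) * (i + 1) := Nat.mul_le_mul_left _ (by omega)
    · left
      exact Nat.pow_le_pow_left hB _
  have hi : 1 ≤ i + 1 := by omega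
  set a := (2 * K 0) ^ (k + 1)
  set b := (K 0 + M) * (2 ^ k * C)
  set c := (4 * M + 4 * C) ^ (k + 1)
  set d := 2 ^ k * (2 * C) * (4 * C)
  have e : (a + b + c + d) * (i + 1) = a * (i + 1) + b * (i + 1) + c * (i + 1) + d * (i + 1) := by
    ring
  have ha : a ≤ a * (i + 1) := Nat.le_mul_of_pos_right _ (by omega)
  have hc : c ≤ c * (i + 1) := Nat.le_mul_of_pos_right _ (by omega)
  rw [e]
  rcases key with h' | h' | h' | h' <;> omega

theorem growth_iterate {S A : Type} (Y : Sys S A) {M k C : ℕ}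
    (hM : ∀ q x, (Y.out q x).length ≤ M) (h : Slow k C Y.K) :
    ∃ D, ∀ n, Y.t n ^ k ≤ D * (n + 1) ^ (k + 1) := by
  obtain ⟨D, hD⟩ := grow Y.K_mono (Y.K_succ_le hM) (C := C + 1) (by omega)
    (h.mono (by omega))
  refine ⟨D, fun n => ?_⟩
  set L : ℕ → ℕ := fun n => Y.K (Y.t n - 1) with hL
  have hLmono : ∀ n, L n ≤ L (n + 1) := by
    intro n
    apply Y.K_mono
    have := Y.t_succ n
    omega
  have hLpos : ∀ n, 1 ≤ L n := fun n => Y.K_pos _
  have ht : ∀ n, Y.t n ≤ 1 + n * L n := by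
    intro n
    induction n with
    | zero => simp [Y.t_zero]
    | succ n ih =>
      have h1 := Y.t_succ n
      have h2 := hLmono n
      have h3 : (n + 1) * L n ≤ (n + 1) * L (n + 1) := Nat.mul_le_mul_left _ h2
      have h4 : (n + 1) * L n = n * L n + L n := by ring
      have h5 : Y.t (n + 1) = Y.t n + L n := h1
      omega
  have h1 : L n ^ k * L n ≤ D * (n + 1) * L n := by
    calc L n ^ k * L n = L n ^ (k + 1) := (pow_succ _ _).symm
      _ ≤ D * (Y.t n - 1 + 1) := hD _
      _ = D * Y.t n := by rw [Nat.sub_add_cancel (Y.t_pos n)]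
      _ ≤ D * (1 + n * L n) := Nat.mul_le_mul_left _ (ht n)
      _ ≤ D * ((n + 1) * L n) := by
        apply Nat.mul_le_mul_left
        have := hLpos n
        have : (n + 1) * L n = n * L n + L n := by ring
        omega
      _ = D * (n + 1) * L n := by ring
  have h2 : L n ^ k ≤ D * (n + 1) := Nat.le_of_mul_le_mul_right h1 (hLpos n)
  have h3 : Y.t n ≤ (n + 1) * L n := by
    have := ht n
    have := hLpos n
    have : (n + 1) * L n = n * L n + L n := by ring
    omega
  calc Y.t n ^ k ≤ ((n + 1) * L n) ^ k := Nat.pow_le_pow_left h3 _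
    _ = (n + 1) ^ k * L n ^ k := mul_pow _ _ _
    _ ≤ (n + 1) ^ k * (D * (n + 1)) := Nat.mul_le_mul_left _ h2
    _ = D * (n + 1) ^ (k + 1) := by ring

end Pool.Agent.W_MP_5d512e_h33
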