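import Pool.Agent.W_MP_5d512e_h33.Defs
import Pool.Agent.W_MP_5d512e_h33.Growth

/-!
# The reduction
-/

set_option autoImplicit false

namespace Pool.Agent.W_MP_5d512e_h33

open Sy

/-! ### Filtering the output of a machine -/

lemma out_eq {d : ℕ} {W : ℕ → Fin d} {l : List (Fin d)}
    (h : ∀ (i : ℕ) (hi : i < l.length), l[i] = W i) : l = (List.range l.length).map W := by
  apply List.ext_getElem
  · simp
  · intro i h1 h2
    simp [h i h1]

lemma prefix_range {d : ℕ} (W : ℕ → Fin d) {m n : ℕ} (h : m ≤ n) :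
    (List.range m).map W <+: (List.range n).map W := by
  obtain ⟨k, rfl⟩ := Nat.exists_eq_add_of_le h
  rw [List.range_add, List.map_append]
  exact List.prefix_append _ _

lemma prefix_iff_range {A : Type} {W : ℕ → A} {l : List A}
    (h : ∀ (i : ℕ) (hi : i < l.length), l[i] = W i) (n : ℕ) (hn : l.length ≤ n) :
    l <+: (List.range n).map W := by
  have e : l = (List.range l.length).map W := by
    apply List.ext_getElem
    · simp
    · intro i h1 h2
      simp [h i h1]
  obtain ⟨k, hk⟩ := Nat.exists_eq_add_of_le hn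
  rw [hk, List.range_add, List.map_append, ← e]
  exact List.prefix_append _ _

theorem LogSpace.filter {D d : ℕ} {W : ℕ → Fin D} {w : ℕ → Fin d}
    (φ : Fin D → Option (Fin d)) (B : ℕ)
    (h1 : ∀ (N j : ℕ) (h : j < (((List.range N).map W).filterMap φ).length),
      (((List.range N).map W).filterMap φ)[j] = w j)
    (h2 : ∀ n : ℕ, n ≤ (((List.range (B * (n + 1) ^ 2)).map W).filterMap φ).length)
    (h : LogSpace W) : LogSpace w := by
  obtain ⟨m, k, g, C, δM, conf, c0, cs, co, cu, cb⟩ := h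
  have hout : ∀ t, (conf t).2.2.2 = (List.range (conf t).2.2.2.length).map W :=
    fun t => out_eq (co t)
  refine ⟨m, k, g, C * (Nat.log 2 (B + 1) + 8),
    fun s r => ((δM s r).1, (δM s r).2.1, (δM s r).2.2.1, (δM s r).2.2.2.bind φ),
    fun t => ((conf t).1, (conf t).2.1, (conf t).2.2.1, (conf t).2.2.2.filterMap φ),
    ?_, ?_, ?_, ?_, ?_⟩
  · simp [c0]
  · intro t
    simp only
    rw [cs t]
    simp only [List.filterMap_append, Prod.mk.injEq, true_and, List.append_cancel_left_eq]
    cases (δM (conf t).1 (fun j' => (conf t).2.1 j' ((conf t).2.2.1 j'))).2.2.2 with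
    | none => simp
    | some x =>
      simp only [Option.toList_some, Option.bind_some]
      cases hx : φ x <;> simp [hx]
  · intro t i hi
    simp only at hi ⊢
    have e := hout t
    have hi' : i < (((List.range (conf t).2.2.2.length).map W).filterMap φ).length := by
      rw [← e]; exact hi
    have := h1 _ i hi'
    rw [← this]
    congr 1
    rw [← e]
  · intro n
    obtain ⟨t, ht⟩ := cu (B * (n + 1) ^ 2)
    refine ⟨t, ?_⟩
    simp only
    refine (h2 n).trans ?_
    have := (prefix_range W ht).filterMap φ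
    rw [← hout t] at this
    exact this.length_le
  · intro n t hn ht j
    simp only at ht ⊢
    have hN : 1 ≤ (B + 1) * (n + 1) ^ 2 := Nat.mul_pos (by omega) (by positivity)
    have hlt : ∀ t' < t, (conf t').2.2.2.length < (B + 1) * (n + 1) ^ 2 := by
      intro t' ht'
      by_contra hcon
      have hB : B * (n + 1) ^ 2 ≤ (conf t').2.2.2.length := by
        have : B * (n + 1) ^ 2 ≤ (B + 1) * (n + 1) ^ 2 := Nat.mul_le_mul_right _ (by omega)
        omega
      have h3 := (prefix_range W hB).filterMap φ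
      rw [← hout t'] at h3
      have h4 := h3.length_le
      have h5 := h2 n
      have h6 := ht t' ht'
      omega
    have h3 := cb _ t hN hlt j
    refine h3.trans ?_
    have h4 : Nat.log 2 ((B + 1) * (n + 1) ^ 2) + 1 ≤
        (Nat.log 2 (B + 1) + 8) * (Nat.log 2 n + 1) := by
      have hb : B + 1 < 2 ^ (Nat.log 2 (B + 1) + 1) := Nat.lt_pow_succ_log_self (by omega) _
      have hn' : n < 2 ^ (Nat.log 2 n + 1) := Nat.lt_pow_succ_log_self (by omega) _
      have hn1 : n + 1 ≤ 2 ^ (Nat.log 2 n + 1) := hn'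
      have hlog : Nat.log 2 ((B + 1) * (n + 1) ^ 2) <
          (Nat.log 2 (B + 1) + 1) + (Nat.log 2 n + 1) * 2 := by
        apply Nat.log_lt_of_lt_pow (by omega)
        rw [pow_add, pow_mul]
        exact Nat.mul_lt_mul_of_lt_of_le hb (Nat.pow_le_pow_left hn1 2) (by positivity)
      have : (Nat.log 2 (B + 1) + 8) * (Nat.log 2 n + 1) =
          Nat.log 2 (B + 1) * Nat.log 2 n + Nat.log 2 (B + 1) + 8 * Nat.log 2 n + 8 := by ring
      have h0 : 0 ≤ Nat.log 2 (B + 1) * Nat.log 2 n := Nat.zero_le _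
      omega
    calc C * (Nat.log 2 ((B + 1) * (n + 1) ^ 2) + 1) ≤
        C * ((Nat.log 2 (B + 1) + 8) * (Nat.log 2 n + 1)) := Nat.mul_le_mul_left _ h4
      _ = C * (Nat.log 2 (B + 1) + 8) * (Nat.log 2 n + 1) := by ring

/-! ### Change of alphabet -/

namespace Sys

variable {S A B : Type}

/-- Transport of a system. -/
def map (e : A ≃ B) (Y : Sys S A) : Sys S B where
  δ := fun q x => Y.δ q (e.symm x)
  out := fun q x => (Y.out q (e.symm x)).map e
  q0 := Y.q0
  a := e Y.a
  u := Y.u.map e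
  hne := by intro q x; simp [Y.hne]
  ha := by simp [Y.ha]
  hu := by simp [Y.hu]

lemma map_st (e : A ≃ B) (Y : Sys S A) (i : ℕ) :
    (Y.map e).st i = ((Y.st i).1, (Y.st i).2.1.map e, (Y.st i).2.2.map e) := by
  induction i with
  | zero => simp [st_zero, map]
  | succ i ih =>
    rw [st_succ, ih, st_succ]
    obtain ⟨q, Z, T⟩ := Y.st i
    cases Z with
    | nil => rfl
    | cons x Z => simp [qstep, map]

lemma map_K (e : A ≃ B) (Y : Sys S A) : (Y.map e).K = Y.K := by
  funext i
  rw [K, map_st, K]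
  simp

lemma map_T (e : A ≃ B) (Y : Sys S A) (i : ℕ) : (Y.map e).T i = (Y.T i).map e := by
  rw [T, map_st, T]

/-- A bound for the lengths of the outputs. -/
lemma exists_bound [Finite S] [Finite A] (Y : Sys S A) :
    ∃ M, ∀ q x, (Y.out q x).length ≤ M := by
  have := Fintype.ofFinite S
  have := Fintype.ofFinite A
  refine ⟨Finset.univ.sup (fun y : S × A => (Y.out y.1 y.2).length), fun q x => ?_⟩
  exact Finset.le_sup (f := fun y : S × A => (Y.out y.1 y.2).length) (Finset.mem_univ (q, x))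

end Sys

instance {p : ℕ} {A : Type} [Finite A] : Finite (Sy p A) := by
  let g : Sy p A → Unit ⊕ A ⊕ A ⊕ (A × Fin (p + 1)) ⊕ (Fin (p + 1) × A × Fin (p + 2)) ⊕
      (Fin (p + 1) × A) := fun x =>
    match x with
    | .S => Sum.inl ()
    | .P y => Sum.inr (Sum.inl y)
    | .N y => Sum.inr (Sum.inr (Sum.inl y))
    | .R y q => Sum.inr (Sum.inr (Sum.inr (Sum.inl (y, q))))
    | .H q y j => Sum.inr (Sum.inr (Sum.inr (Sum.inr (Sum.inl (q, y, j)))))
    | .F q y => Sum.inr (Sum.inr (Sum.inr (Sum.inr (Sum.inr (q, y)))))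
  apply Finite.of_injective g
  intro x y h
  cases x <;> cases y <;> simp_all [g]

/-! ### The reduction step -/

/-- Systems with two states, the next state depends only on the letter. -/
def QR (k : ℕ) : Prop := ∀ (d : ℕ) (Y : Sys (Fin 2) (Fin d)),
  (∀ s s' x, Y.δ s x = Y.δ s' x) → (∃ C, Slow k C Y.K) → LogSpace Y.lim

/-- All systems. -/
def QQ (k : ℕ) : Prop := ∀ (p d : ℕ) (Y : Sys (Fin (p + 1)) (Fin d)),
  (∃ C, Slow k C Y.K) → LogSpace Y.lim

theorem QQ_of_QR {k : ℕ} (h : QR (k + 1)) : QQ k := by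
  rintro p d Y ⟨C, hC⟩
  obtain ⟨M, hM⟩ := Y.exists_bound
  obtain ⟨D, ⟨e⟩⟩ := Finite.exists_equiv_fin (Sy p (Fin d))
  have hX : LogSpace ((nsys Y).map e).lim := by
    apply h D ((nsys Y).map e)
    · intro s s' x
      rfl
    · rw [Sys.map_K]
      exact ⟨_, slow_sim Y hM hC⟩
  have hget : ∀ (m i : ℕ) (hi : i < (((nsys Y).map e).T m).length),
      (((nsys Y).map e).T m)[i] = ((nsys Y).map e).lim i :=
    fun m i hi => ((nsys Y).map e).T_getElem hi
  have hT : ∀ n, (((nsys Y).map e).T (tm Y n)).filterMap (fun x => ψ Y.a (e.symm x)) = Y.T n := by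
    intro n
    rw [Sys.map_T, List.filterMap_map, ← T_tm Y n]
    congr 1
    funext x
    simp
  refine LogSpace.filter (fun x => ψ Y.a (e.symm x))
    (Y.K 0 + 1 + (Y.K 0 + M) + (p + 2) * (Y.K 0 + M) + M + 3) ?_ ?_ hX
  · intro N j hj
    have h1 : (List.range N).map ((nsys Y).map e).lim <+: ((nsys Y).map e).T (tm Y N) := by
      have hl := ((nsys Y).map e).T_length (tm Y N)
      have h2 := le_tm Y N
      have h3 : ((nsys Y).map e).T (tm Y N) =
          (List.range (((nsys Y).map e).T (tm Y N)).length).map ((nsys Y).map e).lim :=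
        out_eq (hget _)
      rw [h3]
      exact prefix_range _ (by omega)
    have h2 := h1.filterMap (fun x => ψ Y.a (e.symm x))
    rw [hT] at h2
    rw [h2.getElem hj]
    exact Y.T_getElem _
  · intro n
    have hlen : (((nsys Y).map e).T (tm Y n)).length ≤
        (Y.K 0 + 1 + (Y.K 0 + M) + (p + 2) * (Y.K 0 + M) + M + 3) * (n + 1) ^ 2 := by
      rw [((nsys Y).map e).T_length, Sys.map_K, K_tm]
      have h1 := tm_le Y hM n
      have h2 := K_le Y hM n
      have h3 : Y.K n ≤ (Y.K 0 + M) * (n + 1) := by nlinarith [Nat.zero_le (Y.K 0 * n)]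
      have h4 : n * ((p + 2) * Y.K n + M + 3) ≤
          n * ((p + 2) * ((Y.K 0 + M) * (n + 1)) + M + 3) := by
        apply Nat.mul_le_mul_left
        have := Nat.mul_le_mul_left (p + 2) h3
        omega
      have h5 : tm Y n + 1 + Y.K n ≤ Y.K 0 +
          n * ((p + 2) * ((Y.K 0 + M) * (n + 1)) + M + 3) + 1 + (Y.K 0 + M) * (n + 1) := by
        omega
      refine h5.trans ?_
      generalize Y.K 0 = a
      generalize ha : (a + M) = b
      generalize (p + 2) = c
      have : (a + 1 + b + c * b + M + 3) * (n + 1) ^ 2 =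
          a + n * (c * (b * (n + 1)) + M + 3) + 1 + b * (n + 1) +
          (a * (n ^ 2 + 2 * n) + (n ^ 2 + 2 * n) + b * (n ^ 2 + n) + c * b * (n + 1) +
            (M + 3) * (n ^ 2 + n + 1)) := by ring
      rw [this]
      exact Nat.le_add_right _ _
    have h1 := prefix_iff_range (W := ((nsys Y).map e).lim)
      (hget (tm Y n)) _ hlen
    have h2 := (h1.filterMap (fun x => ψ Y.a (e.symm x))).length_le
    rw [hT, Y.T_length] at h2
    omega

theorem QR_of_QQ {k : ℕ} (h : QQ k) : QR k := fun d Y _ hs => h 1 d Y hs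

theorem QR_one_of_zero (h : QR 0) : QR 1 := by
  intro d Y hr _
  exact h d Y hr ⟨2, fun m s hs => by simpa using slow_zero (M := 0) m s (by simpa using hs)⟩

theorem QQ_zero {k : ℕ} (h : QR k) : QQ 0 := by
  have key : ∀ k, QR (k + 1) → QQ 0 := by
    intro k
    induction k with
    | zero => exact QQ_of_QR
    | succ k ih => exact fun h => ih (QR_of_QQ (QQ_of_QR h))
  cases k with
  | zero => exact key 0 (QR_one_of_zero h)
  | succ k => exact key k h

/-! ### Back to the format of the problem -/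

lemma Sys.iterates {p d : ℕ} (Y : Sys (Fin p) (Fin d)) : Iterates Y.δ Y.q0 Y.out Y.a Y.lim where
  nonerasing := Y.hne
  start := by
    have : trans Y.δ Y.q0 Y.out [Y.a] = Y.a :: Y.u := by
      rw [← Y.ha]
      simp [trans]
    rw [this]
    exact ⟨Y.u, rfl⟩
  unbounded := fun N => ⟨N, (Y.t_lt N).le⟩
  limit := fun n i h => Y.iterate_getElem n i h

theorem QR_of_main {k : ℕ}
    (h : ∀ (d : ℕ) (δ : Fin 2 → Fin d → Fin 2) (q0 : Fin 2)
      (out : Fin 2 → Fin d → List (Fin d)) (a : Fin d) (w : ℕ → Fin d),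
      Iterates δ q0 out a w → (∀ s s' x, δ s x = δ s' x) →
      (∃ C, ∀ n, ((trans δ q0 out)^[n] [a]).length ^ k ≤ C * (n + 1) ^ (k + 1)) →
      LogSpace w) : QR k := by
  rintro d Y hr ⟨C, hC⟩
  obtain ⟨M, hM⟩ := Y.exists_bound
  exact h d Y.δ Y.q0 Y.out Y.a Y.lim Y.iterates hr (growth_iterate Y hM hC)

theorem main_of_QQ (h : QQ 0) {d p : ℕ} {δ : Fin p → Fin d → Fin p} {q0 : Fin p}
    {out : Fin p → Fin d → List (Fin d)} {a : Fin d} {w : ℕ → Fin d}
    (hI : Iterates δ q0 out a w) : LogSpace w := by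
  obtain ⟨p, rfl⟩ : ∃ n, p = n + 1 := ⟨p - 1, by have := q0.pos; omega⟩
  have hta : trans δ q0 out [a] = out q0 a := by simp [trans]
  obtain ⟨u, hu⟩ := hI.start
  rw [hta] at hu
  have hu' : out q0 a = a :: u := hu.symm
  have hne : u ≠ [] := by
    rintro rfl
    obtain ⟨n, hn⟩ := hI.unbounded 2
    have : ∀ n, (trans δ q0 out)^[n] [a] = [a] := by
      intro n
      induction n with
      | zero => rfl
      | succ n ih => rw [Function.iterate_succ_apply', ih, hta, hu']
    rw [this] at hn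
    simp at hn
  let Y : Sys (Fin (p + 1)) (Fin d) := ⟨δ, out, q0, a, u, hI.nonerasing, hu', hne⟩
  have hw : Y.lim = w := by
    funext i
    have hlt : i < ((trans δ q0 out)^[i] [a]).length := Y.t_lt i
    rw [← hI.limit i i hlt]
    exact (Y.iterate_getElem i i hlt).symm
  rw [← hw]
  apply h
  obtain ⟨M, hM⟩ := Y.exists_bound
  exact ⟨M + 2, slow_zero⟩

end Pool.Agent.W_MP_5d512e_h33
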