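import Pool.Agent.W_MP_5d512e_h33.Queue

/-!
# Simulation by a transducer with two states whose state is determined by the last letter
-/

set_option autoImplicit false

namespace Pool.Agent.W_MP_5d512e_h33

/-- Letters of the new transducer: start letter, plain letters, new letters, receiving letters,
active letters and new active letters. -/
inductive Sy (p : ℕ) (A : Type)
  | S
  | P (y : A)
  | N (y : A)
  | R (y : A) (q : Fin (p + 1))
  | H (q : Fin (p + 1)) (y : A) (j : Fin (p + 2))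
  | F (q : Fin (p + 1)) (y : A)

namespace Sy

variable {p : ℕ} {A : Type}

/-- The bit that a letter sends. -/
def β : Sy p A → Fin 2
  | .H _ _ j => if j = 0 then 0 else 1
  | _ => 0

/-- Extraction. -/
def ψ (a : A) : Sy p A → Option A
  | .S => some a
  | .N y => some y
  | .F _ y => some y
  | _ => none

/-- First row with an active letter. -/
def hd (q : Fin (p + 1)) : List A → List (Sy p A)
  | [] => [.S]
  | z :: zs => .F q z :: zs.map .N

/-- Increment. -/
def inc (q : Fin (p + 1)) : Fin (p + 1) := ⟨min (q + 1) p, by omega⟩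

/-- Decrement. -/
def dec (j : Fin (p + 2)) : Fin (p + 2) := ⟨j - 1, by omega⟩

/-- Number of pulses to be sent. -/
def full (Y : Sys (Fin (p + 1)) A) (q : Fin (p + 1)) (y : A) : Fin (p + 2) :=
  ⟨(Y.δ q y : ℕ) + 1, by omega⟩

lemma full_ne (Y : Sys (Fin (p + 1)) A) (q : Fin (p + 1)) (y : A) : full Y q y ≠ 0 := by
  intro h
  have := congrArg Fin.val h
  simp [full] at this

/-- Output. -/
def f (Y : Sys (Fin (p + 1)) A) : Fin 2 → Sy p A → List (Sy p A)
  | _, .S => .S :: hd (Y.δ Y.q0 Y.a) Y.u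
  | b, .P y => if b = 0 then [.P y] else [.R y 0]
  | b, .N y => if b = 0 then [.P y] else [.R y 0]
  | b, .R y q => if b = 0 then [.H q y (full Y q y)] else [.R y (inc q)]
  | b, .H q y j => if b = 0 then (if j = 0 then (Y.out q y).map .N else [.H q y (dec j)])
      else (if j = 0 then hd (Y.δ q y) (Y.out q y) else [.H q y 0])
  | _, .F q y => [.H q y (full Y q y)]

lemma hd_ne (q : Fin (p + 1)) (l : List A) : hd q l ≠ [] := by
  cases l <;> simp [hd]

end Sy

open Sy

variable {p : ℕ} {A : Type}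

/-- The new system. -/
def nsys (Y : Sys (Fin (p + 1)) A) : Sys (Fin 2) (Sy p A) where
  δ := fun _ x => β x
  out := f Y
  q0 := 0
  a := .S
  u := hd (Y.δ Y.q0 Y.a) Y.u
  hne := by
    intro b x
    cases x <;> simp only [f] <;> (try split_ifs) <;> simp [hd_ne, Y.hne]
  ha := rfl
  hu := hd_ne _ _

lemma filterMap_P (a : A) (l : List A) :
    (l.map (Sy.P : A → Sy p A)).filterMap (ψ a) = [] := by
  induction l with
  | nil => rfl
  | cons x l ih => simpa [ψ] using ih

lemma filterMap_N (a : A) (l : List A) :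
    (l.map (Sy.N : A → Sy p A)).filterMap (ψ a) = l := by
  induction l with
  | nil => rfl
  | cons x l ih => simpa [ψ] using ih

lemma filterMap_hd (a : A) (q : Fin (p + 1)) {l : List A} (hl : l ≠ []) :
    (hd q l).filterMap (ψ a) = l := by
  cases l with
  | nil => exact absurd rfl hl
  | cons x l =>
    have : (hd q (x :: l)).filterMap (ψ a) = x :: (l.map (Sy.N : A → Sy p A)).filterMap (ψ a) :=
      rfl
    rw [this, filterMap_N]

section

variable (Y : Sys (Fin (p + 1)) A)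

lemma run_P (l : List A) :
    run (nsys Y).δ (nsys Y).out 0 (l.map Sy.P) = (0, l.map Sy.P) := by
  induction l with
  | nil => rfl
  | cons x l ih =>
    rw [List.map_cons, run_cons]
    change ((run (nsys Y).δ (nsys Y).out 0 (l.map Sy.P)).1, _ ++
      (run (nsys Y).δ (nsys Y).out 0 (l.map Sy.P)).2) = _
    rw [ih]
    rfl

lemma run_N (l : List A) :
    run (nsys Y).δ (nsys Y).out 0 (l.map Sy.N) = (0, l.map Sy.P) := by
  induction l with
  | nil => rfl
  | cons x l ih =>
    rw [List.map_cons, run_cons]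
    change ((run (nsys Y).δ (nsys Y).out 0 (l.map Sy.N)).1, _ ++
      (run (nsys Y).δ (nsys Y).out 0 (l.map Sy.N)).2) = _
    rw [ih]
    rfl

/-- The new state represents the old one. -/
structure Sim (s : Fin (p + 1) × List A × List A) (t : Fin 2 × List (Sy p A) × List (Sy p A)) :
    Prop where
  ne : s.2.1 ≠ []
  st : t.1 = 0
  qu : ∃ x Z, s.2.1 = x :: Z ∧ t.2.1 = .H s.1 x (full Y s.1 x) :: Z.map .P
  tot : t.2.2.filterMap (ψ Y.a) = s.2.2

/-- Number of steps of the simulation of one step. -/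
def cost (s : Fin (p + 1) × List A × List A) : ℕ :=
  match s.2.1 with
  | [] => 0
  | x :: Z => if Z = [] then (if (Y.δ s.1 x : ℕ) = 0 then 2 else 3) + (Y.out s.1 x).length
      else ((Y.δ s.1 x : ℕ) + 2) * (Z.length + 1) + (Y.out s.1 x).length

/-- One sweep that sends a pulse. -/
lemma sweep1 (q : Fin (p + 1)) (x x2 : A) (j : Fin (p + 2)) (hj : j ≠ 0) (Z : List A)
    (T : List (Sy p A)) :
    ∃ W, W.filterMap (ψ Y.a) = [] ∧
    (qstep (nsys Y).δ (nsys Y).out)^[Z.length + 2] (0, .H q x j :: .P x2 :: Z.map .P, T) =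
      (0, .H q x (dec j) :: .R x2 0 :: Z.map .P, T ++ W) := by
  have h := read_block (nsys Y).δ (nsys Y).out (.H q x j :: .P x2 :: Z.map .P) 0 [] T
  rw [List.append_nil] at h
  rw [show (Sy.H q x j :: .P x2 :: Z.map .P).length = Z.length + 2 by simp] at h
  have hrun : run (nsys Y).δ (nsys Y).out 0 (.H q x j :: .P x2 :: Z.map .P) =
      (0, .H q x (dec j) :: .R x2 0 :: Z.map .P) := by
    rw [run_cons, run_cons]
    have h1 : (nsys Y).δ 0 (.H q x j) = 1 := by simp [nsys, β, hj]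
    have h2 : (nsys Y).out 0 (.H q x j) = [.H q x (dec j)] := by simp [nsys, f, hj]
    have h3 : (nsys Y).δ 1 (.P x2) = 0 := by simp [nsys, β]
    have h4 : (nsys Y).out 1 (.P x2) = [.R x2 0] := by simp [nsys, f]
    rw [h1, h2, h3, h4, run_P]
    rfl
  rw [hrun] at h
  refine ⟨_, ?_, h⟩
  simp [ψ, filterMap_P]

lemma sweep2 (q : Fin (p + 1)) (x x2 : A) (j : Fin (p + 2)) (hj : j ≠ 0) (c : Fin (p + 1))
    (Z : List A) (T : List (Sy p A)) :
    ∃ W, W.filterMap (ψ Y.a) = [] ∧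
    (qstep (nsys Y).δ (nsys Y).out)^[Z.length + 2] (0, .H q x j :: .R x2 c :: Z.map .P, T) =
      (0, .H q x (dec j) :: .R x2 (inc c) :: Z.map .P, T ++ W) := by
  have h := read_block (nsys Y).δ (nsys Y).out (.H q x j :: .R x2 c :: Z.map .P) 0 [] T
  rw [List.append_nil] at h
  rw [show (Sy.H q x j :: .R x2 c :: Z.map .P).length = Z.length + 2 by simp] at h
  have hrun : run (nsys Y).δ (nsys Y).out 0 (.H q x j :: .R x2 c :: Z.map .P) =
      (0, .H q x (dec j) :: .R x2 (inc c) :: Z.map .P) := by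
    rw [run_cons, run_cons]
    have h1 : (nsys Y).δ 0 (.H q x j) = 1 := by simp [nsys, β, hj]
    have h2 : (nsys Y).out 0 (.H q x j) = [.H q x (dec j)] := by simp [nsys, f, hj]
    have h3 : (nsys Y).δ 1 (.R x2 c) = 0 := by simp [nsys, β]
    have h4 : (nsys Y).out 1 (.R x2 c) = [.R x2 (inc c)] := by simp [nsys, f]
    rw [h1, h2, h3, h4, run_P]
    rfl
  rw [hrun] at h
  refine ⟨_, ?_, h⟩
  simp [ψ, filterMap_P]

lemma sweeps (q : Fin (p + 1)) (x x2 : A) (Z : List A) (T : List (Sy p A)) (i : ℕ)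
    (hi : i ≤ (Y.δ q x : ℕ)) :
    ∃ W, W.filterMap (ψ Y.a) = [] ∧
    (qstep (nsys Y).δ (nsys Y).out)^[(i + 1) * (Z.length + 2)]
      (0, .H q x (full Y q x) :: .P x2 :: Z.map .P, T) =
      (0, .H q x ⟨(Y.δ q x : ℕ) - i, by omega⟩ :: .R x2 ⟨i, by omega⟩ :: Z.map .P, T ++ W) := by
  induction i with
  | zero =>
    obtain ⟨W, h1, h2⟩ := sweep1 Y q x x2 (full Y q x) (full_ne Y q x) Z T
    refine ⟨W, h1, ?_⟩
    rw [Nat.zero_add, Nat.one_mul, h2]
    rfl
  | succ i ih =>
    obtain ⟨W, h1, h2⟩ := ih (by omega)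
    have hne : (⟨(Y.δ q x : ℕ) - i, by omega⟩ : Fin (p + 2)) ≠ 0 := by
      intro h
      have := congrArg Fin.val h
      simp at this
      omega
    obtain ⟨W', h3, h4⟩ := sweep2 Y q x x2 _ hne ⟨i, by omega⟩ Z (T ++ W)
    refine ⟨W ++ W', by simp [h1, h3], ?_⟩
    rw [show (i + 1 + 1) * (Z.length + 2) = (Z.length + 2) + (i + 1) * (Z.length + 2) by ring,
      Function.iterate_add_apply, h2, h4, List.append_assoc]
    have e1 : (dec ⟨(Y.δ q x : ℕ) - i, by omega⟩ : Fin (p + 2)) =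
        ⟨(Y.δ q x : ℕ) - (i + 1), by omega⟩ := by
      apply Fin.ext
      simp only [dec]
      omega
    have e2 : (inc ⟨i, by omega⟩ : Fin (p + 1)) = ⟨i + 1, by omega⟩ := by
      apply Fin.ext
      simp only [inc]
      omega
    rw [e1, e2]

/-- Reading new and plain letters. -/
lemma read_tail (H : Sy p A) (Z V : List A) (T : List (Sy p A)) :
    ∃ W, W.filterMap (ψ Y.a) = [] ∧
    (qstep (nsys Y).δ (nsys Y).out)^[Z.length + V.length] (0, Z.map .P ++ (V.map .N ++ [H]), T) =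
      (0, H :: (Z ++ V).map .P, T ++ W) := by
  have h := read_block (nsys Y).δ (nsys Y).out (Z.map .P ++ V.map .N) 0 [H] T
  have hl : (Z.map (Sy.P : A → Sy p A) ++ V.map (Sy.N : A → Sy p A)).length =
      Z.length + V.length := by simp
  rw [hl, run_append, run_P] at h
  simp only at h
  rw [run_N] at h
  refine ⟨Z.map .P ++ V.map .P, by rw [List.filterMap_append, filterMap_P, filterMap_P]; rfl, ?_⟩
  rw [← List.append_assoc, h]
  simp

/-- Step of the simulation, queue of length at least two. -/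
lemma step_ge (q : Fin (p + 1)) (x x2 : A) (Z : List A) (T : List (Sy p A)) :
    ∃ W, W.filterMap (ψ Y.a) = Y.out q x ∧
    (qstep (nsys Y).δ (nsys Y).out)^[((Y.δ q x : ℕ) + 2) * (Z.length + 2) + (Y.out q x).length]
      (0, .H q x (full Y q x) :: .P x2 :: Z.map .P, T) =
      (0, .H (Y.δ q x) x2 (full Y (Y.δ q x) x2) :: (Z ++ Y.out q x).map .P, T ++ W) := by
  obtain ⟨W, h1, h2⟩ := sweeps Y q x x2 Z T (Y.δ q x) le_rfl
  have h0 : (⟨(Y.δ q x : ℕ) - (Y.δ q x : ℕ), by omega⟩ : Fin (p + 2)) = 0 := by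
    apply Fin.ext; simp
  have hcc : (⟨(Y.δ q x : ℕ), by omega⟩ : Fin (p + 1)) = Y.δ q x := rfl
  rw [h0, hcc] at h2
  have hr := read_block (nsys Y).δ (nsys Y).out [.H q x 0, .R x2 (Y.δ q x)] 0 (Z.map .P) (T ++ W)
  have hrun : run (nsys Y).δ (nsys Y).out 0 [.H q x 0, .R x2 (Y.δ q x)] =
      (0, (Y.out q x).map .N ++ [.H (Y.δ q x) x2 (full Y (Y.δ q x) x2)]) := by
    rw [run_cons, run_singleton]
    have e1 : (nsys Y).δ 0 (.H q x 0) = 0 := by simp [nsys, β]
    have e2 : (nsys Y).out 0 (.H q x 0) = (Y.out q x).map .N := by simp [nsys, f]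
    have e3 : (nsys Y).δ 0 (.R x2 (Y.δ q x)) = 0 := by simp [nsys, β]
    have e4 : (nsys Y).out 0 (.R x2 (Y.δ q x)) =
        [.H (Y.δ q x) x2 (full Y (Y.δ q x) x2)] := by simp [nsys, f]
    rw [e1, e2, e3, e4]
  rw [hrun] at hr
  obtain ⟨W', h3, h4⟩ := read_tail Y (.H (Y.δ q x) x2 (full Y (Y.δ q x) x2)) Z (Y.out q x)
    (T ++ W ++ ((Y.out q x).map .N ++ [.H (Y.δ q x) x2 (full Y (Y.δ q x) x2)]))
  refine ⟨W ++ (((Y.out q x).map .N ++ [.H (Y.δ q x) x2 (full Y (Y.δ q x) x2)]) ++ W'), ?_, ?_⟩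
  · simp only [List.filterMap_append, h1, h3, filterMap_N, List.nil_append, List.append_nil]
    simp [ψ]
  · rw [show ((Y.δ q x : ℕ) + 2) * (Z.length + 2) + (Y.out q x).length =
      (Z.length + (Y.out q x).length) + (2 + ((Y.δ q x : ℕ) + 1) * (Z.length + 2)) by ring,
      Function.iterate_add_apply _ (Z.length + (Y.out q x).length),
      Function.iterate_add_apply _ 2, h2]
    have hr' : (qstep (nsys Y).δ (nsys Y).out)^[2]
        (0, Sy.H q x 0 :: Sy.R x2 (Y.δ q x) :: Z.map .P, T ++ W) =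
        (0, Z.map .P ++ ((Y.out q x).map .N ++ [.H (Y.δ q x) x2 (full Y (Y.δ q x) x2)]),
          T ++ W ++ ((Y.out q x).map .N ++ [.H (Y.δ q x) x2 (full Y (Y.δ q x) x2)])) := hr
    rw [hr', h4]
    simp only [List.append_assoc]

/-- Reading a row that begins with a new active letter. -/
lemma read_hd (q : Fin (p + 1)) {V : List A} (hV : V ≠ []) (T : List (Sy p A)) :
    ∃ W x Z, W.filterMap (ψ Y.a) = [] ∧ V = x :: Z ∧
    (qstep (nsys Y).δ (nsys Y).out)^[V.length] (0, hd q V, T) =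
      (0, .H q x (full Y q x) :: Z.map .P, T ++ W) := by
  cases V with
  | nil => exact absurd rfl hV
  | cons x Z =>
    have h := read_block (nsys Y).δ (nsys Y).out (hd q (x :: Z)) 0 [] T
    rw [List.append_nil] at h
    have hrun : run (nsys Y).δ (nsys Y).out 0 (hd q (x :: Z)) =
        (0, .H q x (full Y q x) :: Z.map .P) := by
      rw [hd, run_cons]
      have e1 : (nsys Y).δ 0 (.F q x) = 0 := by simp [nsys, β]
      have e2 : (nsys Y).out 0 (.F q x) = [.H q x (full Y q x)] := by simp [nsys, f]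
      rw [e1, e2, run_N]
      rfl
    rw [hrun] at h
    refine ⟨.H q x (full Y q x) :: Z.map .P, x, Z, ?_, rfl, ?_⟩
    · simp [ψ, filterMap_P]
    · rw [show (x :: Z).length = (hd q (x :: Z)).length by simp [hd]]
      exact h

/-- Step of the simulation, queue of length one. -/
lemma step_one (q : Fin (p + 1)) (x : A) (T : List (Sy p A)) :
    ∃ W x' Z', W.filterMap (ψ Y.a) = Y.out q x ∧ Y.out q x = x' :: Z' ∧
    (qstep (nsys Y).δ (nsys Y).out)^[(if (Y.δ q x : ℕ) = 0 then 2 else 3) + (Y.out q x).length]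
      (0, [.H q x (full Y q x)], T) =
      (0, .H (Y.δ q x) x' (full Y (Y.δ q x) x') :: Z'.map .P, T ++ W) := by
  have s1 : qstep (nsys Y).δ (nsys Y).out (0, [.H q x (full Y q x)], T) =
      (1, [.H q x (dec (full Y q x))], T ++ [.H q x (dec (full Y q x))]) := by
    simp [qstep, nsys, β, f, full_ne]
  have s2 : ∀ T' : List (Sy p A), qstep (nsys Y).δ (nsys Y).out (1, [.H q x 0], T') =
      (0, hd (Y.δ q x) (Y.out q x), T' ++ hd (Y.δ q x) (Y.out q x)) := by
    intro T'
    simp [qstep, nsys, β, f]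
  by_cases hz : (Y.δ q x : ℕ) = 0
  · have hd0 : dec (full Y q x) = 0 := by
      apply Fin.ext
      simp [dec, full, hz]
    rw [hd0] at s1
    obtain ⟨W, x', Z', h1, h2, h3⟩ := read_hd Y (Y.δ q x) (Y.hne q x)
      (T ++ [.H q x 0] ++ hd (Y.δ q x) (Y.out q x))
    refine ⟨[.H q x 0] ++ (hd (Y.δ q x) (Y.out q x) ++ W), x', Z', ?_, h2, ?_⟩
    · simp only [List.filterMap_append, h1, filterMap_hd _ _ (Y.hne q x)]
      simp [ψ]
    · rw [if_pos hz, Nat.add_comm, Function.iterate_add_apply]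
      have : (qstep (nsys Y).δ (nsys Y).out)^[2] (0, [.H q x (full Y q x)], T) =
          (0, hd (Y.δ q x) (Y.out q x), T ++ [.H q x 0] ++ hd (Y.δ q x) (Y.out q x)) := by
        rw [Function.iterate_succ_apply, s1, Function.iterate_one, s2]
      rw [this, h3]
      simp only [List.append_assoc]
  · have hd0 : dec (full Y q x) ≠ 0 := by
      intro h
      have := congrArg Fin.val h
      simp [dec, full] at this
      exact hz (by simp [this])
    have s3 : ∀ T' : List (Sy p A), qstep (nsys Y).δ (nsys Y).out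
        (1, [.H q x (dec (full Y q x))], T') = (1, [.H q x 0], T' ++ [.H q x 0]) := by
      intro T'
      simp [qstep, nsys, β, f, hd0]
    obtain ⟨W, x', Z', h1, h2, h3⟩ := read_hd Y (Y.δ q x) (Y.hne q x)
      (T ++ [.H q x (dec (full Y q x))] ++ [.H q x 0] ++ hd (Y.δ q x) (Y.out q x))
    refine ⟨[.H q x (dec (full Y q x))] ++ ([.H q x 0] ++ (hd (Y.δ q x) (Y.out q x) ++ W)),
      x', Z', ?_, h2, ?_⟩
    · simp only [List.filterMap_append, h1, filterMap_hd _ _ (Y.hne q x)]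
      simp [ψ]
    · rw [if_neg hz, Nat.add_comm, Function.iterate_add_apply]
      have : (qstep (nsys Y).δ (nsys Y).out)^[3] (0, [.H q x (full Y q x)], T) =
          (0, hd (Y.δ q x) (Y.out q x), T ++ [.H q x (dec (full Y q x))] ++ [.H q x 0] ++
            hd (Y.δ q x) (Y.out q x)) := by
        rw [Function.iterate_succ_apply, s1, Function.iterate_succ_apply, s3,
          Function.iterate_one, s2]
      rw [this, h3]
      simp only [List.append_assoc]

lemma sim_step {s : Fin (p + 1) × List A × List A}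
    {t : Fin 2 × List (Sy p A) × List (Sy p A)} (h : Sim Y s t) :
    Sim Y (qstep Y.δ Y.out s) ((qstep (nsys Y).δ (nsys Y).out)^[cost Y s] t) := by
  obtain ⟨hne, hst, ⟨x, Z, hZ, hq⟩, htot⟩ := h
  obtain ⟨q, Zs, Ts⟩ := s
  obtain ⟨b, Zt, Tt⟩ := t
  simp only at hne hst hZ hq htot
  subst hst hZ hq
  cases Z with
  | nil =>
    obtain ⟨W, x', Z', h1, h2, h3⟩ := step_one Y q x Tt
    simp only [cost, if_true, List.map_nil]
    rw [h3]
    refine ⟨?_, rfl, ⟨x', Z', ?_, rfl⟩, ?_⟩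
    · simp [qstep, Y.hne]
    · simp [qstep, h2]
    · simp [qstep, htot, h1]
  | cons x2 Z =>
    obtain ⟨W, h1, h2⟩ := step_ge Y q x x2 Z Tt
    simp only [cost, List.cons_ne_nil, if_false, List.length_cons, List.map_cons]
    rw [h2]
    refine ⟨?_, rfl, ⟨x2, Z ++ Y.out q x, ?_, rfl⟩, ?_⟩
    · simp [qstep]
    · simp [qstep]
    · simp [qstep, htot, h1]

/-- Times of the simulation. -/
def tm : ℕ → ℕ
  | 0 => Y.u.length
  | i + 1 => tm i + cost Y (Y.st i)

lemma sim_st (i : ℕ) : Sim Y (Y.st i) ((nsys Y).st (tm Y i)) := by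
  induction i with
  | zero =>
    obtain ⟨W, x, Z, h1, h2, h3⟩ := read_hd Y (Y.δ Y.q0 Y.a) Y.hu
      (.S :: hd (Y.δ Y.q0 Y.a) Y.u)
    have : (nsys Y).st (tm Y 0) = (0, .H (Y.δ Y.q0 Y.a) x (full Y (Y.δ Y.q0 Y.a) x) :: Z.map .P,
        .S :: hd (Y.δ Y.q0 Y.a) Y.u ++ W) := h3
    rw [this]
    refine ⟨Y.hu, rfl, ⟨x, Z, h2, rfl⟩, ?_⟩
    simp only [List.filterMap_append, h1, List.append_nil, List.filterMap_cons,
      filterMap_hd _ _ Y.hu, Sys.st_zero]
    rfl
  | succ i ih =>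
    have h := sim_step Y ih
    rw [← Sys.st_succ] at h
    have e : (nsys Y).st (tm Y (i + 1)) =
        (qstep (nsys Y).δ (nsys Y).out)^[cost Y (Y.st i)] ((nsys Y).st (tm Y i)) := by
      rw [tm, Sys.st, seq_add]
      rfl
    rw [e]
    exact h

lemma K_tm (i : ℕ) : (nsys Y).K (tm Y i) = Y.K i := by
  obtain ⟨-, -, ⟨x, Z, h1, h2⟩, -⟩ := sim_st Y i
  rw [Sys.K, h2, Sys.K, h1]
  simp

lemma T_tm (i : ℕ) : ((nsys Y).T (tm Y i)).filterMap (ψ Y.a) = Y.T i := (sim_st Y i).tot

lemma le_cost (i : ℕ) : Y.K i ≤ cost Y (Y.st i) := by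
  obtain ⟨x, -, h, -⟩ := Y.T_succ i
  rw [Sys.K, cost, h]
  simp only [List.length_cons]
  split_ifs with h1 h2
  · rw [h1, List.length_nil]; omega
  · rw [h1, List.length_nil]; omega
  · nlinarith [Nat.zero_le (Y.δ (Y.st i).1 x : ℕ),
      Nat.zero_le (Y.out (Y.st i).1 x).length]

lemma cost_le {M : ℕ} (hM : ∀ q x, (Y.out q x).length ≤ M) (i : ℕ) :
    cost Y (Y.st i) ≤ (p + 2) * Y.K i + M + 3 := by
  obtain ⟨x, -, h, -⟩ := Y.T_succ i
  have hx := hM (Y.st i).1 x
  rw [Sys.K, cost, h]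
  simp only [List.length_cons]
  have hq : (Y.δ (Y.st i).1 x : ℕ) ≤ p := by omega
  split_ifs with h1 h2
  · omega
  · omega
  · have : ((Y.δ (Y.st i).1 x : ℕ) + 2) * ((Y.st i).2.1.tail.length + 1) ≤
        (p + 2) * ((Y.st i).2.1.tail.length + 1) := Nat.mul_le_mul_right _ (by omega)
    omega

end

end Pool.Agent.W_MP_5d512e_h33
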